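import Pool.Agent.Y400.BN.Main

set_option autoImplicit false

open MeasureTheory ProbabilityTheory Filter Topology
open scoped NNReal ENNReal

namespace Pool.Agent.Results.MP_320542_pr.BottlenecksAllDirections

open Pool.Agent.H588R3.FPP Pool.Agent.Y400.BN

/-- The increment `B_n = T(0, n e₁) - T(e₁, n e₁)`. -/
noncomputable def B (d n : ℕ) (ω : Edge d → ℝ≥0) : ℝ :=
  (T ω (axis d 0) (axis d n) : ℝ) - (T ω (axis d 1) (axis d n) : ℝ)

lemma axis_injective {d : ℕ} (hd : 1 ≤ d) : Function.Injective (axis d) := by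
  intro m n h
  have := congrFun h ⟨0, hd⟩
  simpa [axis] using this

lemma tendsto_axis {d : ℕ} (hd : 1 ≤ d) : Tendsto (axis d) atTop cofinite := by
  rw [← Nat.cofinite_eq_atTop]
  exact (axis_injective hd).tendsto_cofinite

lemma axis_zero (d : ℕ) : axis d 0 = 0 := by
  ext i; simp [axis]

lemma axis_eq {d : ℕ} (hd : 1 ≤ d) (k : ℕ) :
    axis d k = 0 + (k : ℤ) • (Pi.single ⟨0, hd⟩ 1 : Fin d → ℤ) := by
  ext i
  by_cases hi : i = ⟨0, hd⟩
  · subst hi
    simp [axis]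
  · have : (i : ℕ) ≠ 0 := fun h => hi (Fin.ext h)
    simp [axis, this, hi]

lemma axis_near {d : ℕ} (k m : ℕ) (hkm : k ≤ m) (hm : m ≤ k + 1) :
    ∀ i, |axis d m i - axis d k i| ≤ ((1 : ℕ) : ℤ) := by
  intro i
  unfold axis
  by_cases hi : (i : ℕ) = 0
  · simp only [if_pos hi]
    rw [abs_le]
    push_cast
    omega
  · simp [if_neg hi]

lemma busemann_axis {d : ℕ} (hd : 1 ≤ d) {ω : Edge d → ℝ≥0} {k : ℕ}
    (h : BusemannLimits 1 ω (axis d k)) :
    ∃ L : ℝ, ∀ᶠ n : ℕ in atTop,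
      (T ω (axis d k) (axis d n) : ℝ) - (T ω (axis d (k + 1)) (axis d n) : ℝ) = L := by
  obtain ⟨L, hL⟩ := h (axis d k) (axis d (k + 1)) (axis_near k k le_rfl (by omega))
    (axis_near k (k + 1) (by omega) le_rfl)
  exact ⟨L, (tendsto_axis hd).eventually hL⟩

/-- An atomless law. -/
lemma exists_atomless : ∃ F : Measure ℝ≥0, IsProbabilityMeasure F ∧ ∀ c, F {c} = 0 := by
  refine ⟨(volume.restrict (Set.Icc (0 : ℝ) 1)).map Real.toNNReal, ?_, fun c => ?_⟩
  · have : IsProbabilityMeasure (volume.restrict (Set.Icc (0 : ℝ) 1)) := ⟨by simp⟩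
    exact Measure.isProbabilityMeasure_map (by fun_prop)
  · rw [Measure.map_apply (by fun_prop) (measurableSet_singleton c),
      Measure.restrict_apply (by measurability)]
    apply measure_mono_null (t := {(c : ℝ)}) _ (by simp)
    rintro x ⟨hx, hx'⟩
    have h1 : Real.toNNReal x = c := hx
    rw [Set.mem_singleton_iff, ← h1, Real.coe_toNNReal x hx'.1]

/-- **Bottlenecks and Busemann limits in all directions.** Consider first-passage percolation on
`ℤ^d`, `d ≥ 2`, with i.i.d. edge weights of any law `F` which is not a point mass, and let `r` be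
any radius.

(1) With positive probability there are a site `w` and a finite set `D` of sites such that
`T(x, y) = T(x, w) + T(w, y)` for all `x` in the box of radius `r` around `0` and all `y ∉ D`; on
this event `T(x, y) - T(x', y)` does not depend on `y ∉ D`, for all `x, x'` in the box.

(2) There is `c > 0` such that almost surely, on every ray `v + n u` (`n = 0, 1, ...`) of `ℤ^d`
(`u ≠ 0`), a proportion at least `c` of the first `M` sites has the property of (1) for the box of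
radius `r` around it, for all large `M`.

(3) In particular almost surely `n ↦ T(k e₁, n e₁) - T((k+1) e₁, n e₁)` is eventually constant for
a set of `k` of positive lower density, and `B_n` is eventually constant with positive
probability.

(4) Hence the assertion of Q1 is false. -/
theorem result :
    (∀ (d : ℕ), 2 ≤ d → ∀ (F : Measure ℝ≥0), IsProbabilityMeasure F → (∀ c, F {c} ≠ 1) →
      (∀ r : ℕ, 0 < law d F {ω | Bottleneck r ω 0 ∧ BusemannLimits r ω 0}) ∧
      (∀ r : ℕ, ∃ c : ℝ, 0 < c ∧ ∀ᵐ ω ∂law d F, ∀ v u : Fin d → ℤ, u ≠ 0 →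
        ∀ᶠ M : ℕ in atTop, c * M ≤ {n : ℕ | n < M ∧ Bottleneck r ω (v + (n : ℤ) • u) ∧
          BusemannLimits r ω (v + (n : ℤ) • u)}.ncard) ∧
      (∃ c : ℝ, 0 < c ∧ ∀ᵐ ω ∂law d F, ∀ᶠ M : ℕ in atTop, c * M ≤
        {k : ℕ | k < M ∧ ∃ L : ℝ, ∀ᶠ n : ℕ in atTop,
          (T ω (axis d k) (axis d n) : ℝ) - (T ω (axis d (k + 1)) (axis d n) : ℝ) = L}.ncard) ∧
      0 < law d F {ω | ∃ L : ℝ, ∀ᶠ n : ℕ in atTop, B d n ω = L}) ∧
    ¬ (∀ F : Measure ℝ≥0, IsProbabilityMeasure F → (∀ c, F {c} = 0) →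
      ∃ d₀ : ℕ, ∀ d, d₀ ≤ d →
        ∀ᵐ ω ∂(law d F), ¬ ∃ L : ℝ, Tendsto (fun n => B d n ω) atTop (𝓝 L)) := by
  have hmain : ∀ (d : ℕ), 2 ≤ d → ∀ (F : Measure ℝ≥0), IsProbabilityMeasure F →
      (∀ c, F {c} ≠ 1) →
      (∀ r : ℕ, 0 < law d F {ω | Bottleneck r ω 0 ∧ BusemannLimits r ω 0}) ∧
      (∀ r : ℕ, ∃ c : ℝ, 0 < c ∧ ∀ᵐ ω ∂law d F, ∀ v u : Fin d → ℤ, u ≠ 0 →
        ∀ᶠ M : ℕ in atTop, c * M ≤ {n : ℕ | n < M ∧ Bottleneck r ω (v + (n : ℤ) • u) ∧
          BusemannLimits r ω (v + (n : ℤ) • u)}.ncard) ∧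
      (∃ c : ℝ, 0 < c ∧ ∀ᵐ ω ∂law d F, ∀ᶠ M : ℕ in atTop, c * M ≤
        {k : ℕ | k < M ∧ ∃ L : ℝ, ∀ᶠ n : ℕ in atTop,
          (T ω (axis d k) (axis d n) : ℝ) - (T ω (axis d (k + 1)) (axis d n) : ℝ) = L}.ncard) ∧
      0 < law d F {ω | ∃ L : ℝ, ∀ᶠ n : ℕ in atTop, B d n ω = L} := by
    intro d hd F hF hc
    have h1 : ∀ r : ℕ, 0 < law d F {ω | Bottleneck r ω 0 ∧ BusemannLimits r ω 0} := by
      intro r
      refine lt_of_lt_of_le (main hd F hc r).1 (measure_mono fun ω hω => ?_)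
      exact ⟨hω, Bottleneck.busemann hω⟩
    refine ⟨h1, ?_, ?_, ?_⟩
    · intro r
      obtain ⟨c, hc0, hae⟩ := (main hd F hc r).2
      refine ⟨c, hc0, ?_⟩
      filter_upwards [hae] with ω hω v u hu
      filter_upwards [hω v u hu] with M hM
      refine hM.trans ?_
      have : {n : ℕ | n < M ∧ Bottleneck r ω (v + (n : ℤ) • u)} ⊆
          {n : ℕ | n < M ∧ Bottleneck r ω (v + (n : ℤ) • u) ∧
            BusemannLimits r ω (v + (n : ℤ) • u)} :=
        fun n hn => ⟨hn.1, hn.2, Bottleneck.busemann hn.2⟩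
      exact_mod_cast Set.ncard_le_ncard this ((Set.finite_lt_nat M).subset fun n hn => hn.1)
    · obtain ⟨c, hc0, hae⟩ := (main hd F hc 1).2
      refine ⟨c, hc0, ?_⟩
      have hu : (Pi.single ⟨0, by omega⟩ 1 : Fin d → ℤ) ≠ 0 := by
        intro h0
        have := congrFun h0 ⟨0, by omega⟩
        simp at this
      filter_upwards [hae] with ω hω
      filter_upwards [hω 0 _ hu] with M hM
      refine hM.trans ?_
      have : {n : ℕ | n < M ∧ Bottleneck 1 ω (0 + (n : ℤ) • (Pi.single ⟨0, by omega⟩ 1))} ⊆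
          {k : ℕ | k < M ∧ ∃ L : ℝ, ∀ᶠ n : ℕ in atTop,
          (T ω (axis d k) (axis d n) : ℝ) - (T ω (axis d (k + 1)) (axis d n) : ℝ) = L} := by
        intro k hk
        refine ⟨hk.1, ?_⟩
        have h2 := hk.2
        rw [← axis_eq (by omega) k] at h2
        exact busemann_axis (by omega) h2.busemann
      exact_mod_cast Set.ncard_le_ncard this ((Set.finite_lt_nat M).subset fun n hn => hn.1)
    · refine lt_of_lt_of_le (h1 1) (measure_mono fun ω hω => ?_)
      have h2 : BusemannLimits 1 ω (axis d 0) := by rw [axis_zero]; exact hω.2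
      exact busemann_axis (by omega) h2
  refine ⟨hmain, ?_⟩
  intro hQ
  obtain ⟨F, hF, hc⟩ := exists_atomless
  obtain ⟨d₀, hd₀⟩ := hQ F hF hc
  have h3 := hd₀ (max d₀ 2) (le_max_left _ _)
  have h4 := (hmain (max d₀ 2) (le_max_right _ _) F hF
    (fun c => by rw [hc c]; exact zero_ne_one)).2.2.2
  rw [ae_iff] at h3
  simp only [not_not] at h3
  apply h4.ne'
  refine measure_mono_null ?_ h3
  rintro ω ⟨L, hL⟩
  exact ⟨L, tendsto_const_nhds.congr' (hL.mono fun n hn => hn.symm)⟩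

end Pool.Agent.Results.MP_320542_pr.BottlenecksAllDirections
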